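import Pool.Agent.P.MP_4fa782_ag.Final

namespace Pool.Agent.Old.MP_4fa782_ag.NotPermutable

open Pool.Agent.P.MP_4fa782_ag

/-- Saturation and completion do not commute in dimension two: there is a pair `{o, R}` with
(A), (B), (C) and `dim R = 2` such that `o` is its own saturation, and the completion of the
saturation of `o`, embedded in the total ring of quotients of the completion of `o`, is strictly
smaller than the saturation of the completion of `o`. -/
theorem result :
    ∃ (R o : Type) (_ : CommRing R) (_ : IsDomain R) (_ : CommRing o) (_ : Algebra R o),
      IsPair R o ∧ ringKrullDim R = 2 ∧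
      saturation R o = (algebraMap o (FractionRing o)).range ∧
      ∃ (_ : IsDomain (Completion R)) (_ : Algebra (Completion R) (Completion o)),
        IsInduced (algebraMap R o) (algebraMap (Completion R) (Completion o)) ∧
        Module.IsTorsionFree (Completion R) (Completion o) ∧
        CompletionBelowSaturation (Completion R) (toSaturation R o) :=
  have := isIntegrallyClosed_RR
  main_abstract RR DD isRegularLocalRing_RR ⟨algebraMap ℚ RR⟩ isNagata_RR ringKrullDim_RR
    isDomain_completion_RR isUnit_two_RR

end Pool.Agent.Old.MP_4fa782_ag.NotPermutable
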